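import Pool.Agent.EXL.Fin

/-!
# MP_a12702_lc, partial answer to Q1 (complex exponentiation up to a small group)

Let `G` be a countable subgroup of `ℂ^*` which contains a divisible subgroup `D` that is not
contained in the unit circle. The structure `(ℂ; +, *, R)` with `R x y ↔ y ∈ exp x * G` is
quasiminimal for the infinitary logic `L_{∞ω}` with countably many parameters.

Definitions: `ExpMod`, `Definable` (Pool/Agent/EXL/Def.lean).
-/

set_option autoImplicit false

namespace Pool.Agent.Results.MP_a12702_lc.BlurredExp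

open Pool.Agent.EXL

theorem result (G D : Subgroup ℂˣ) (hG : (G : Set ℂˣ).Countable) (hDG : D ≤ G)
    (hD : ∀ n : ℕ, 0 < n → ∀ x ∈ D, ∃ y ∈ D, y ^ n = x) (x : ℂˣ) (hx : x ∈ D)
    (hx1 : ‖(x : ℂ)‖ ≠ 1) (A : Set ℂ) (hA : A.Countable) (S : Set (Fin 1 → ℂ))
    (hS : Definable (ExpMod ((fun y : ℂˣ => (y : ℂ)) '' (G : Set ℂˣ))) A 1 S) :
    S.Countable ∨ Sᶜ.Countable :=
  quasiminimal G D hG hDG hD x hx hx1 A hA S hS

end Pool.Agent.Results.MP_a12702_lc.BlurredExp
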