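import Mathlib
import Pool.Agent.Helper23.EECore

/-!
# Countable partitions of the complex plane into projections of entire-analytic sets

A set defined in the complex exponential field by an existential formula with parameters
(even by a countable disjunction of formulas: existential quantifiers in front of a countable
Boolean combination of equations between terms) is entire-existential.  We show that if `ℂ` is
partitioned into countably many entire-existential sets, then one piece is cocountable and all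
others are countable.  For two pieces: a set which is both existentially and universally
definable is countable or cocountable.
-/

set_option autoImplicit false

open Set Metric Filter Topology MeasureTheory

namespace Pool.Agent.EXL.Old.DeltaOne

open Pool.Agent.Helper23.EE

theorem result {ι : Type} [Countable ι] (S : ι → Set ℂ) (hS : ∀ i, EntireExistential (S i))
    (hdisj : ∀ i j, i ≠ j → Disjoint (S i) (S j)) (hcov : ⋃ i, S i = univ) :
    ∃ i, (S i)ᶜ.Countable ∧ ∀ j, j ≠ i → (S j).Countable := by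
  have hao : ∀ i, ∃ U : Set ℂ, IsOpen U ∧ (S i \ U).Countable ∧ (U \ S i).Countable :=
    fun i => (hS i).almost_open
  choose U hU h1 h2 using hao
  have hUU : ∀ i j, i ≠ j → U i ∩ U j = ∅ := by
    intro i j hij
    apply open_countable_empty ((hU i).inter (hU j))
    refine ((h2 i).union (h2 j)).mono ?_
    rintro x ⟨hxi, hxj⟩
    by_cases hx : x ∈ S i
    · exact Or.inr ⟨hxj, fun h => disjoint_left.1 (hdisj i j hij) hx h⟩
    · exact Or.inl ⟨hxi, hx⟩
  set C : Set ℂ := ⋃ i, (S i \ U i) with hC
  have hCc : C.Countable := countable_iUnion h1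
  have hconn := hCc.isConnected_compl_of_one_lt_rank (E := ℂ) (by simp)
  have hcovU : ∀ x ∈ Cᶜ, ∃ i, x ∈ S i ∧ x ∈ U i := by
    intro x hx
    obtain ⟨i, hi⟩ := mem_iUnion.1 (hcov.symm ▸ mem_univ x : x ∈ ⋃ i, S i)
    refine ⟨i, hi, ?_⟩
    by_contra hxU
    exact hx (mem_iUnion.2 ⟨i, hi, hxU⟩)
  obtain ⟨x₀, hx₀⟩ := hconn.nonempty
  obtain ⟨i, hi, hiU⟩ := hcovU x₀ hx₀
  have hall : Cᶜ ⊆ U i := by
    intro y hy
    by_contra hyU
    obtain ⟨j, hj, hjU⟩ := hcovU y hy
    have hV : IsOpen (⋃ j ∈ {j | j ≠ i}, U j) := isOpen_biUnion fun j _ => hU j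
    have hji : j ≠ i := fun h => hyU (h ▸ hjU)
    obtain ⟨z, _, hz1, hz2⟩ := hconn.isPreconnected (U i) (⋃ j ∈ {j | j ≠ i}, U j) (hU i) hV
      (fun z hz => by
        obtain ⟨k, hk, hkU⟩ := hcovU z hz
        by_cases hki : k = i
        · exact Or.inl (hki ▸ hkU)
        · exact Or.inr (mem_iUnion₂.2 ⟨k, hki, hkU⟩))
      ⟨x₀, hx₀, hiU⟩ ⟨y, hy, mem_iUnion₂.2 ⟨j, hji, hjU⟩⟩
    obtain ⟨k, hk, hkz⟩ := mem_iUnion₂.1 hz2
    have : z ∈ U i ∩ U k := ⟨hz1, hkz⟩
    rw [hUU i k (fun h => hk h.symm)] at this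
    exact this
  have hSi : (S i)ᶜ.Countable := by
    refine (hCc.union (h2 i)).mono ?_
    intro y hy
    by_cases hyC : y ∈ C
    · exact Or.inl hyC
    · exact Or.inr ⟨hall hyC, hy⟩
  refine ⟨i, hSi, fun j hj => hSi.mono ?_⟩
  intro y hy hyi
  exact disjoint_left.1 (hdisj j i hj) hy hyi

end Pool.Agent.EXL.Old.DeltaOne
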